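import Pool.Agent.AT10.Stmts2
import Pool.Agent.Helper28_AT8.LCL
import Pool.Agent.Helper49_AT3.BRG
import Pool.Agent.Helper3_AT6.APX

/-!
# Squad AT10, LCS: the local case
-/

open scoped BigOperators

noncomputable section

namespace Pool.Agent.PP.T10.H28

open Pool.Agent.Helper51_AWC Pool.Agent.Helper79_WRA Pool.Agent.PP Pool.Agent.PP.KF
open Pool.Agent.PP.K9 Pool.Agent.PP.K9.H97 Pool.Agent.PP.H75 Pool.Agent.PP.T3 Pool.Agent.PP.T2
open Pool.Agent.PP.T5 Pool.Agent.PP.TB
open Pool.Agent.PP.T8 (rs pw fv rd Ip Rv)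

attribute [local instance] Ideal.Quotient.field

section grp

variable {G : Type} [Group G]

theorem mem_conjS {g : G} {P : Subgroup G} {x : G} : x ∈ conjS g P ↔ g⁻¹ * x * g ∈ P := by
  rw [conjS, Subgroup.mem_map]
  constructor
  · rintro ⟨y, hy, rfl⟩
    have : g⁻¹ * ((MulAut.conj g).toMonoidHom y) * g = y := by
      simp [mul_assoc]
    rw [this]
    exact hy
  · intro h
    exact ⟨_, h, by simp [mul_assoc]⟩

theorem card_conjS (g : G) (P : Subgroup G) : Nat.card (conjS g P) = Nat.card P :=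
  (Nat.card_congr (P.equivMapOfInjective (MulAut.conj g).toMonoidHom
    (MulAut.conj g).injective).toEquiv).symm

/-- a subgroup `P` of `V`, a central subgroup `Z` of `V`: `|P : P ∩ Z|` divides `|V : Z|` -/
theorem card_dvd [Finite G] {V Z P : Subgroup G} (hZV : Z ≤ V) (hPV : P ≤ V)
    (cen : ∀ z ∈ Z, ∀ v ∈ V, v * z = z * v) :
    ∃ m : ℕ, Nat.card V * Nat.card (P ⊓ Z : Subgroup G) = m * (Nat.card Z * Nat.card P) := by
  have hn : (Z.subgroupOf V).Normal := by
    refine ⟨fun z hz v => ?_⟩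
    rw [Subgroup.mem_subgroupOf] at hz ⊢
    have h1 : ((v * z * v⁻¹ : V) : G) = z := by
      change (v : G) * z * (v : G)⁻¹ = z
      rw [cen z hz v v.2, mul_inv_cancel_right]
    rw [h1]
    exact hz
  have h1 : (Z.subgroupOf V).relIndex (P.subgroupOf V) ∣ (Z.subgroupOf V).index :=
    Subgroup.relIndex_dvd_index_of_normal _ _
  rw [Subgroup.relIndex_subgroupOf hPV] at h1
  obtain ⟨m, hm⟩ := h1
  have hm' : Z.relIndex V = Z.relIndex P * m := hm
  have c1 : Nat.card Z * Z.relIndex V = Nat.card V := by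
    have := Subgroup.relIndex_mul_relIndex (⊥ : Subgroup G) Z V bot_le hZV
    rwa [Subgroup.relIndex_bot_left, Subgroup.relIndex_bot_left] at this
  have c2 : Nat.card (P ⊓ Z : Subgroup G) * Z.relIndex P = Nat.card P := by
    have := Subgroup.relIndex_mul_relIndex (⊥ : Subgroup G) (P ⊓ Z) P bot_le inf_le_left
    rw [Subgroup.relIndex_bot_left, Subgroup.relIndex_bot_left, inf_comm,
      Subgroup.inf_relIndex_right] at this
    rw [inf_comm]
    exact this
  refine ⟨m, ?_⟩
  rw [← c1, hm', ← c2]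
  ring

/-- the linear character `u ↦ nu (a u a⁻¹)` -/
def lamq {Z P₀ : Subgroup G} (nu : Z →* ℂ) (a : G) (h : ∀ u : P₀, a * (u : G) * a⁻¹ ∈ Z) :
    P₀ →* ℂ where
  toFun u := nu ⟨a * u * a⁻¹, h u⟩
  map_one' := by
    have h1 : (⟨a * ((1 : P₀) : G) * a⁻¹, h 1⟩ : Z) = 1 := by
      apply Subtype.ext
      change a * 1 * a⁻¹ = 1
      group
    rw [h1, map_one]
  map_mul' u v := by
    rw [← map_mul]
    congr 1
    apply Subtype.ext
    change a * ((u : G) * (v : G)) * a⁻¹ = (a * u * a⁻¹) * (a * v * a⁻¹)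
    group

theorem finsum_prop {α : Type} [Fintype α] (p : α → Prop) [DecidablePred p] (f : α → ℂ) :
    (∑ᶠ (x : α) (_ : p x), f x) = ∑ x, if p x then f x else 0 := by
  rw [finsum_eq_sum_of_fintype]
  refine Finset.sum_congr rfl fun x _ => ?_
  by_cases h : p x
  · rw [if_pos h, finsum_eq_if, if_pos h]
  · rw [if_neg h, finsum_eq_if, if_neg h]

end grp

section blk

variable {M : Ideal (integralClosure ℤ ℂ)} [M.IsMaximal] {G : Type} [Group G] [Finite G]

omit [Finite G] in
theorem rs_cl {F : Type} [Field F] {e : G → F} (he : IsCl e) (q z : G) :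
    cj q (rs (Cu z) e) = rs (Cu (q * z * q⁻¹)) e := by
  funext x
  change rs (Cu z) e (q⁻¹ * x * q) = _
  have h1 : q⁻¹ * x * q ∈ Cu z ↔ x ∈ Cu (q * z * q⁻¹) := T3.H49.cu_conj rfl x
  unfold rs
  by_cases hx : x ∈ Cu (q * z * q⁻¹)
  · rw [if_pos hx, if_pos (h1.2 hx)]
    have := he x q⁻¹
    rwa [inv_inv] at this
  · rw [if_neg hx, if_neg fun h => hx (h1.1 h)]

/-- the local block is under the restriction of `e` -/
theorem und_G {F : Type} [Field F] {e b : G → F} {z : G} (hs : ∀ x, x ∉ Cu z → b x = 0)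
    (h : mulF (fun t : Cu z => e t) (fun t : Cu z => b t) = fun t : Cu z => b t) :
    mulF (rs (Cu z) e) b = b := by
  have hrs : ∀ x, x ∉ Cu z → rs (Cu z) e x = 0 := by
    intro x hx
    unfold rs
    rw [if_neg hx]
  apply eq_of_res (N := Cu z) (mulF_supp (Cu z) hrs hs) hs
  rw [mulF_res (Cu z) b hrs]
  have h1 : (fun t : Cu z => rs (Cu z) e t) = fun t : Cu z => e t := by
    funext t
    unfold rs
    rw [if_pos t.2]
  rw [h1]
  exact h

end blk

theorem lcs (sbe : SbeStmt) (tvs : TvsStmt) (lca : LcaStmt) (lft : T8.LftStmt)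
    (zcp : TB.ZcpStmt) : LcsStmt := by
  intro ℓ _ M _ hM G _ _ e V Z γ b hZ hLo nu χ hχ P hP i hi hbr
  classical
  have hF : GoodF ℓ (FF M) := H50.fld ℓ Fact.out M hM
  have hcl : ∀ x y, χ (y * x * y⁻¹) = χ x := fun x y => irr_conj hχ x y
  obtain ⟨-, hsb⟩ := sbe ℓ M hM G e V Z γ b hZ
  have zc1 := (zcp ℓ M hM G e V Z γ b hZ).1
  have hEl : ∀ u ∈ P, El ℓ u := by
    intro u hu
    obtain ⟨n, hn⟩ := hP ⟨u, hu⟩
    exact ⟨n, congrArg Subtype.val hn⟩
  have hZp : ∀ u ∈ P, IsPGroup ℓ (Subgroup.zpowers u) := fun u hu =>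
    hP.to_le (Subgroup.zpowers_le.2 hu)
  have hT0 : ∀ u ∈ P, tv M u 0 χ = 0 := fun u hu => (tvs ℓ M hM G u (hEl u hu)).2.2 χ hcl
  have hecl : IsCl e := hZ.blk.1.1
  have heid : mulF e e = e := hZ.blk.1.2
  have hsb0 : ∀ z u : G, (¬ ∃ q : G, q * z * q⁻¹ = u) → sb b z u = 0 := by
    intro z u h
    unfold sb
    rw [dif_neg h]
  have hfi0 : ∀ u ∈ P, (∀ z ∈ Z, ∀ q : G, q * z * q⁻¹ = u →
      mulF (rs (Cu u) i) (cj q (b z)) = 0) →
      fi M (cn V Z γ nu) (fun (z : Z) (u : G) => sb b (z : G) u) i χ u = 0 := by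
    intro u hu h
    unfold fi
    apply finsum_eq_zero_of_forall_eq_zero
    intro z
    have h1 : mulF (rs (Cu u) i) (sb b (z : G) u) = 0 := by
      by_cases hq : ∃ q : G, q * z * q⁻¹ = u
      · obtain ⟨q, hq⟩ := hq
        have h2 : sb b (z : G) u = cj q (b z) := by
          rw [← hq]
          exact hsb z z.2 q
        rw [h2]
        exact h z z.2 q hq
      · rw [hsb0 _ _ hq, mulF_zero_right]
    rw [h1, hT0 u hu, mul_zero]
  have hc : mulF e i = mulF i e := mulF_comm_cl hecl i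
  have hei : mulF e i = 0 ∨ mulF e i = i := by
    have h2 : mulF (mulF e i) i = mulF e i := by rw [mulF_assoc, hi.id]
    have h1 : mulF i (mulF e i) = mulF e i := by
      rw [← mulF_assoc, ← hc, h2]
    apply hi.pr
    · rw [mulF_assoc, h1, ← mulF_assoc, heid]
    · intro v hv
      rw [← cj_eq_iff, cj_mulF, cj_isCl v hecl, (cj_eq_iff v i).2 (hi.iv v hv)]
    · exact h1
    · exact h2
  rcases hei with hei | hei
  · -- the idempotent is not under `e`
    intro κ hκ
    have h0 : ∑ᶠ u : P, fi M (cn V Z γ nu) (fun (z : Z) (u : G) => sb b (z : G) u) i χ (u : G) *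
        κ u = 0 := by
      apply finsum_eq_zero_of_forall_eq_zero
      intro u
      rw [hfi0 u u.2, zero_mul]
      intro z hz q hq
      have h1 := und_G (hZ.lb z hz).1.bx.supp (hZ.lb z hz).1.und
      have h2 := congrArg (cj q) h1
      rw [cj_mulF, rs_cl hecl q z, hq] at h2
      rw [← h2, ← mulF_assoc, ← T8.H28.rs_mulF hF (hZp u u.2) (hi.iv u u.2)
        (fun x => hecl x u), ← hc, hei]
      have h3 : rs (Cu (u : G)) (0 : G → FF M) = 0 := by
        funext x
        unfold rs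
        split_ifs <;> rfl
      rw [h3, mulF_zero_left]
    rw [h0, mul_zero]
    exact (RM M).zero_mem
  · obtain ⟨g, hPg, hin, hout⟩ := hLo P hP i hi hei hbr
    obtain ⟨ih, hih, -, hihr⟩ := lft M G P ⊤ i hi.id
      (fun g hg => absurd (Subgroup.mem_top g) hg) hi.iv
    have htv : ∀ u ∈ P, tv M u (rs (Cu u) i) χ = fv ih u χ := by
      intro u hu
      refine (tvs ℓ M hM G u (hEl u hu)).2.1 (rs (Cu u) i) ih
        ⟨hih.rm, hih.id, hih.iv u hu, ?_⟩ χ hcl
      rw [hihr]
    have hZf : Fintype Z := Fintype.ofFinite Z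
    have hval : ∀ u ∈ P, ∀ hu : g⁻¹ * u * g ∈ Z,
        fi M (cn V Z γ nu) (fun (z : Z) (u : G) => sb b (z : G) u) i χ u =
          ((Nat.card V : ℂ) / Nat.card Z) *
            (∑ᶠ q : Tg V γ ⧸ (Subgroup.centralizer (Z : Set G) ⊓ Tg V γ).subgroupOf (Tg V γ),
              nu ⟨((q.out : Tg V γ) : G) * (g⁻¹ * u * g) * ((q.out : Tg V γ) : G)⁻¹,
                hZ.nrm _ (q.out : Tg V γ).2 _ hu⟩) * fv ih u χ := by
      intro u hu hu0
      have hug : u ∈ conjS g Z := mem_conjS.2 hu0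
      have hJ := hin u hu hug
      have hgu : g * (g⁻¹ * u * g) * g⁻¹ = u := by group
      have hbx : Bx (Cu u) (cj g (b (g⁻¹ * u * g))) := T3.H49.bx_cj hgu (hZ.lb _ hu0).1.bx
      have hterm : ∀ z : Z, tv M u (mulF (rs (Cu u) i) (sb b (z : G) u)) χ =
          if ∃ t ∈ Tg V γ, t * (g⁻¹ * u * g) * t⁻¹ = z then fv ih u χ else 0 := by
        intro z
        by_cases hq : ∃ q : G, q * (z : G) * q⁻¹ = u
        · obtain ⟨q, hq⟩ := hq
          have h2 : sb b (z : G) u = cj q (b z) := by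
            conv_lhs => rw [← hq]
            exact hsb z z.2 q
          have hbz : Bx (Cu u) (cj q (b z)) := T3.H49.bx_cj hq (hZ.lb z z.2).1.bx
          rcases hbx.dich hbz with h3 | h3
          · rw [h2, ← h3, hJ, htv u hu, if_pos]
            have h4 : cj (g⁻¹ * q) (b z) = b (g⁻¹ * u * g) := by
              rw [← cj_cj, ← h3, cj_inv_cj]
            have h5 : (g⁻¹ * q) * z * (g⁻¹ * q)⁻¹ = g⁻¹ * u * g := by
              rw [← hq]
              group
            obtain ⟨t, ht, htz⟩ := hZ.fus _ hu0 z z.2 (g⁻¹ * q) h5 h4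
            refine ⟨t⁻¹, inv_mem ht, ?_⟩
            rw [← htz]
            group
          · rw [h2, ← hJ, mulF_assoc, h3, mulF_zero_right, hT0 u hu, if_neg]
            rintro ⟨t, ht, htz⟩
            have h4 : cj t (b (g⁻¹ * u * g)) = b z := by
              rw [← htz]
              exact (zc1 _ hu0 t ht).1
            have h5 : q * t * g⁻¹ ∈ Cu u := by
              rw [Subgroup.mem_centralizer_singleton_iff]
              calc q * t * g⁻¹ * u = q * (t * (g⁻¹ * u * g) * t⁻¹) * q⁻¹ * (q * t * g⁻¹) := by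
                    group
                _ = u * (q * t * g⁻¹) := by rw [htz, hq]
            have h6 : cj q (b z) = cj g (b (g⁻¹ * u * g)) := by
              have h7 := hbx.ix.inv h5
              rw [cj_cj] at h7
              rw [← h7, ← h4, cj_cj]
              congr 1
              group
            rw [h6, hbx.mul] at h3
            exact hbx.ne h3
        · rw [hsb0 _ _ hq, mulF_zero_right, hT0 u hu, if_neg]
          rintro ⟨t, ht, htz⟩
          apply hq
          refine ⟨g * t⁻¹, ?_⟩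
          rw [← htz]
          group
      have hC : Subgroup.centralizer (Z : Set G) ⊓ Tg V γ ≤ Tg V γ ⊓ Cu (g⁻¹ * u * g) := by
        intro x hx
        refine Subgroup.mem_inf.2 ⟨hx.2, ?_⟩
        rw [Subgroup.mem_centralizer_singleton_iff]
        exact (Subgroup.mem_centralizer_iff.1 hx.1 _ hu0).symm
      have horb := T6.H3.orbit_cosets (H := Z) (T := Tg V γ) (g⁻¹ * u * g) hC
        (fun t ht => hZ.nrm t ht _ hu0) nu
      rw [← horb, finsum_prop]
      unfold fi
      rw [finsum_eq_sum_of_fintype, Finset.mul_sum, Finset.mul_sum, Finset.sum_mul]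
      refine Finset.sum_congr rfl fun z _ => ?_
      rw [hterm z]
      by_cases hz : ∃ t ∈ Tg V γ, t * (g⁻¹ * u * g) * t⁻¹ = z
      · rw [if_pos hz, if_pos hz]
        have h8 : cz V Z γ (z : G) =
            (Subgroup.centralizer (Z : Set G) ⊓ Tg V γ).relIndex
              (Tg V γ ⊓ Cu (g⁻¹ * u * g)) := by
          obtain ⟨t, ht, htz⟩ := hz
          rw [← htz]
          exact (zc1 _ hu0 t ht).2.1
        unfold cn
        rw [h8]
        ring
      · rw [if_neg hz, if_neg hz]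
        ring
    intro κ hκ
    have hPf : Fintype P := Fintype.ofFinite P
    have hP0f : Fintype (P ⊓ conjS g Z : Subgroup G) := Fintype.ofFinite _
    have hQf : Fintype (Tg V γ ⧸
      (Subgroup.centralizer (Z : Set G) ⊓ Tg V γ).subgroupOf (Tg V γ)) := Fintype.ofFinite _
    have hmem : ∀ u : (P ⊓ conjS g Z : Subgroup G), g⁻¹ * (u : G) * g ∈ Z :=
      fun u => mem_conjS.1 u.2.2
    have hlam : ∀ (q : Tg V γ ⧸
        (Subgroup.centralizer (Z : Set G) ⊓ Tg V γ).subgroupOf (Tg V γ))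
        (u : (P ⊓ conjS g Z : Subgroup G)),
        (((q.out : Tg V γ) : G) * g⁻¹) * (u : G) * (((q.out : Tg V γ) : G) * g⁻¹)⁻¹ ∈ Z := by
      intro q u
      have h1 := hZ.nrm _ (q.out : Tg V γ).2 _ (hmem u)
      have h2 : (((q.out : Tg V γ) : G) * g⁻¹) * (u : G) * (((q.out : Tg V γ) : G) * g⁻¹)⁻¹ =
          ((q.out : Tg V γ) : G) * (g⁻¹ * (u : G) * g) * ((q.out : Tg V γ) : G)⁻¹ := by group
      rw [h2]
      exact h1
    choose n hn using fun q => lca M G P (P ⊓ conjS g Z) inf_le_left ih hih χ hχ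
      (lamq nu (((q.out : Tg V γ) : G) * g⁻¹) (hlam q)) κ hκ (fun u => ⟨u, u.2.1⟩)
      (fun u => rfl)
    obtain ⟨m, hm⟩ := card_dvd (V := conjS g V) (Z := conjS g Z) (P := P)
      (fun x hx => mem_conjS.2 (hZ.le (mem_conjS.1 hx))) hPg (by
        intro z hz v hv
        have h1 := hZ.cen _ (mem_conjS.1 hz) _ (mem_conjS.1 hv)
        calc v * z = g * ((g⁻¹ * v * g) * (g⁻¹ * z * g)) * g⁻¹ := by group
          _ = g * ((g⁻¹ * z * g) * (g⁻¹ * v * g)) * g⁻¹ := by rw [h1]
          _ = z * v := by group)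
    rw [card_conjS, card_conjS] at hm
    have hm' : (Nat.card V : ℂ) * Nat.card (P ⊓ conjS g Z : Subgroup G) =
        m * (Nat.card Z * Nat.card P) := by exact_mod_cast hm
    have hZ0 : (Nat.card Z : ℂ) ≠ 0 := Nat.cast_ne_zero.2 Nat.card_pos.ne'
    have hP00 : (Nat.card P : ℂ) ≠ 0 := Nat.cast_ne_zero.2 Nat.card_pos.ne'
    have hP000 : (Nat.card (P ⊓ conjS g Z : Subgroup G) : ℂ) ≠ 0 :=
      Nat.cast_ne_zero.2 Nat.card_pos.ne'
    have hsum : ∑ᶠ u : P, fi M (cn V Z γ nu) (fun (z : Z) (u : G) => sb b (z : G) u) i χ (u : G) *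
        κ u = ((Nat.card V : ℂ) / Nat.card Z) *
          ∑ q, (Nat.card (P ⊓ conjS g Z : Subgroup G) : ℂ) * n q := by
      rw [finsum_eq_sum_of_fintype]
      have h1 : ∑ u : P, fi M (cn V Z γ nu) (fun (z : Z) (u : G) => sb b (z : G) u) i χ (u : G) *
          κ u = ∑ v : (P ⊓ conjS g Z : Subgroup G),
            fi M (cn V Z γ nu) (fun (z : Z) (u : G) => sb b (z : G) u) i χ (v : G) *
              κ ⟨v, v.2.1⟩ := by
        refine (Finset.sum_of_injOn (fun v : (P ⊓ conjS g Z : Subgroup G) =>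
          (⟨v, v.2.1⟩ : P)) ?_ ?_ ?_ ?_).symm
        · intro a _ c _ h
          exact Subtype.ext (congrArg (fun w : P => (w : G)) h)
        · intro a _
          exact Finset.mem_coe.2 (Finset.mem_univ _)
        · intro u _ hu
          have h2 : (u : G) ∉ conjS g Z := fun h => hu ⟨⟨u, u.2, h⟩, Finset.mem_coe.2
            (Finset.mem_univ _), rfl⟩
          rw [hfi0 u u.2 (fun z hz q hq => hout u u.2 h2 z hz q hq), zero_mul]
        · intro v _
          rfl
      rw [h1, Finset.mul_sum]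
      have h3 : ∀ v : (P ⊓ conjS g Z : Subgroup G),
          fi M (cn V Z γ nu) (fun (z : Z) (u : G) => sb b (z : G) u) i χ (v : G) *
              κ ⟨v, v.2.1⟩ = ∑ q, ((Nat.card V : ℂ) / Nat.card Z) *
                (lamq nu (((q.out : Tg V γ) : G) * g⁻¹) (hlam q) v * fv ih (v : G) χ *
                  κ ⟨v, v.2.1⟩) := by
        intro v
        rw [hval v v.2.1 (hmem v), finsum_eq_sum_of_fintype, Finset.mul_sum, Finset.sum_mul,
          Finset.sum_mul]
        refine Finset.sum_congr rfl fun q _ => ?_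
        have h4 : lamq nu (((q.out : Tg V γ) : G) * g⁻¹) (hlam q) v =
            nu ⟨((q.out : Tg V γ) : G) * (g⁻¹ * v * g) * ((q.out : Tg V γ) : G)⁻¹,
                hZ.nrm _ (q.out : Tg V γ).2 _ (hmem v)⟩ := by
          change nu _ = nu _
          congr 1
          apply Subtype.ext
          change (((q.out : Tg V γ) : G) * g⁻¹) * (v : G) * (((q.out : Tg V γ) : G) * g⁻¹)⁻¹ =
            ((q.out : Tg V γ) : G) * (g⁻¹ * (v : G) * g) * ((q.out : Tg V γ) : G)⁻¹
          group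
        rw [h4]
        ring
      rw [Finset.sum_congr rfl fun v _ => h3 v, Finset.sum_comm]
      refine Finset.sum_congr rfl fun q _ => ?_
      rw [← Finset.mul_sum, ← hn q, finsum_eq_sum_of_fintype, mul_inv_cancel_left₀ hP000]
    rw [hsum]
    have hfin : (Nat.card P : ℂ)⁻¹ * (((Nat.card V : ℂ) / Nat.card Z) *
        ∑ q, (Nat.card (P ⊓ conjS g Z : Subgroup G) : ℂ) * n q) =
        ((m * ∑ q, n q : ℤ) : ℂ) := by
      rw [← Finset.mul_sum]
      push_cast
      have h5 : (Nat.card P : ℂ)⁻¹ * (((Nat.card V : ℂ) / Nat.card Z) *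
          ((Nat.card (P ⊓ conjS g Z : Subgroup G) : ℂ) * ∑ q, (n q : ℂ))) =
          ((Nat.card V : ℂ) * Nat.card (P ⊓ conjS g Z : Subgroup G)) /
            (Nat.card Z * Nat.card P) * ∑ q, (n q : ℂ) := by
        field_simp
      rw [h5, hm', mul_div_assoc, div_self (mul_ne_zero hZ0 hP00), mul_one]
    rw [hfin]
    exact intCast_mem (RM M) _

end Pool.Agent.PP.T10.H28
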